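import Pool.Agent.TH764.Clone.Cohen
import Pool.Agent.TH764.Clone.Coded

/-!
# A model in which the clone lattice on a singular cardinal is not dually atomic (Q2)

Let `X` be an infinite set (for instance with `#X = ℵ_ω`) and `#Λ ^ #X = #Λ ≥ 2`.  The poset of
finite partial functions from `Λ × X` to `ℕ` is ccc, it forces `2 ^ #X = #Λ`, and it forces that
every family of fewer than `#Λ` dense sets of finite partial functions from `X` to `ℕ` is met by a
function from `X` to `ℕ`.  In ZFC, the last property with `#Λ` replaced by `2 ^ #X` implies that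
the clone lattice on `X` is not dually atomic.
-/

set_option autoImplicit false

open Cardinal Pool.Agent.Helper937.Spl
open Pool.Agent.Results.MP_174cbb_lc.Regular (DuallyAtomic)

namespace Pool.Agent.Results.MP_174cbb_lc.SingularModel

/-- The forcing conditions: finite partial functions from `Λ × X` to `ℕ` (as finite sets of
pairs), ordered by extension (`ext p q`: `q` extends `p`). -/
abbrev Cond (X Λ : Type) : Type := Fn (Λ × X)

/-- The admissible pairs. -/
def Adm (X Λ : Type) : Prop := Infinite X ∧ 2 ≤ #Λ ∧ #Λ ^ #X = #Λ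

/-- The poset is ccc: every antichain is countable. -/
def CCC (X Λ : Type) : Prop :=
  ∀ A : Set (Cond X Λ), (∀ a ∈ A, ∀ b ∈ A, a ≠ b → ¬ ∃ c, ext a c ∧ ext b c) → A.Countable

/-- At most `#Λ` names for subsets of `X`, up to equivalence (so `2 ^ #X ≤ #Λ` is forced). -/
def FewSubsets (X Λ : Type) : Prop :=
  ∃ N : Λ → X → Set (Cond X Λ), ∀ Y : X → Set (Cond X Λ), ∃ α, ∀ x r,
    Forces (N α x) r ↔ Forces (Y x) r

/-- Names for `#Λ` subsets of `X` which are forced to be pairwise different (so `#Λ ≤ 2 ^ #X` is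
forced): below each condition `r` some condition `s` and some `x` are such that `s` forces that
`x` is in the first set and not in the second. -/
def ManySubsets (X Λ : Type) : Prop :=
  ∃ N : Λ → X → Set (Cond X Λ), ∀ α β, α ≠ β → ∀ r, ∃ s, ext r s ∧ ∃ x, Forces (N α x) s ∧
    ∀ t, ext s t → ¬ Forces (N β x) t

/-- Every condition `r` that forces that all the sets `D ξ` (`ξ : Θ`, `#Θ < #Λ`) of finite partial
functions from `X` to `ℕ` are dense, forces that some function `g` from `X` to `ℕ` extends an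
element of each `D ξ`. -/
def ForcesMeets (X Λ : Type) : Prop :=
  ∀ (Θ : Type), #Θ < #Λ → ∀ (D : Θ → Fn X → Set (Cond X Λ)) (r : Cond X Λ),
    (∀ ξ q s, ext r s → ∃ t, ext s t ∧ ∃ q', ext q q' ∧ Forces (D ξ q') t) →
    ∃ g : X → ℕ → Set (Cond X Λ), IsFun g r ∧
      ∀ ξ s, ext r s → ∃ t, ext s t ∧ ∃ q, Forces (D ξ q) t ∧
        ∀ x n, (x, n) ∈ q.1 → Forces (g x n) t

/-- Fewer than `2 ^ #X` dense sets of finite partial functions from `X` to `ℕ` are met by a
function from `X` to `ℕ`. -/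
def Meets (X : Type) : Prop :=
  ∀ Θ : Type, #Θ < 2 ^ #X → ∀ D : Θ → Fn X → Prop, (∀ ξ q, ∃ q', ext q q' ∧ D ξ q') →
    ∃ g : X → ℕ, ∀ ξ, ∃ q, D ξ q ∧ ∀ x n, (x, n) ∈ q.1 → g x = n

/-- **Main theorem.** (1) `ℵ_ω` is singular and every infinite `X` (so also one with `#X = ℵ_ω`)
is in an admissible pair. (2) For every admissible pair the poset of finite partial functions from
`Λ × X` to `ℕ` is ccc, forces `2 ^ #X = #Λ`, and forces `Meets X`. (3) In ZFC, `Meets X` implies
that the clone lattice on `X` is not dually atomic. -/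
theorem result :
    ((∃ X : Type, #X = ℵ_ Ordinal.omega0 ∧ (#X).IsSingular) ∧
      ∀ X : Type, Infinite X → ∃ Λ : Type, Adm X Λ) ∧
    (∀ X Λ : Type, Adm X Λ →
      CCC X Λ ∧ FewSubsets X Λ ∧ ManySubsets X Λ ∧ ForcesMeets X Λ) ∧
    (∀ X : Type, Infinite X → Meets X → ¬ DuallyAtomic X) := by
  refine ⟨⟨⟨(ℵ_ Ordinal.omega0).out, mk_out _, ?_⟩, ?_⟩, ?_, ?_⟩
  · rw [mk_out]
    exact isSingular_aleph_omega0
  · intro X hX
    have h0 : ℵ₀ ≤ #X := Cardinal.infinite_iff.1 hX
    refine ⟨X → Bool, hX, ?_, ?_⟩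
    · rw [← power_def]
      simp only [mk_fintype, Fintype.card_bool, Nat.cast_ofNat]
      calc (2 : Cardinal.{0}) ≤ ℵ₀ := (natCast_lt_aleph0 (n := 2)).le
        _ ≤ #X := h0
        _ ≤ 2 ^ #X := (cantor _).le
    · rw [← power_def, ← power_mul, mul_eq_self h0]
  · rintro X Λ ⟨hX, h2, h⟩
    refine ⟨fn_ccc _, TH764.Clone.few_subsets hX h2 h, ?_, ?_⟩
    · obtain ⟨x⟩ : Nonempty X := inferInstance
      have : Nonempty X := ⟨x⟩
      obtain ⟨N, hN⟩ := TH764.Clone.many_subsets (X := X) (Λ := Λ)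
      exact ⟨N, fun α β hαβ r => hN α β hαβ r hX⟩
    · intro Θ hΘ D r hD
      exact TH764.Clone.forces_baire hX h2 h Θ hΘ D r hD
  · intro X hX h
    exact TH764.Clone.not_duallyAtomic_of_meets X h

end Pool.Agent.Results.MP_174cbb_lc.SingularModel
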